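import Mathlib
import Pool.Agent.TH202.Defs

/-!
# Weak log canonical models

All varieties are normal and projective with function field `K`; see `Pool.Agent.TH202.Defs`.
-/

set_option autoImplicit false

namespace Pool.Agent.Y181

open Pool.Agent.H436R3.Fol Pool.Agent.TH202

variable {K : Type} [Field K] [Algebra ℂ K]

/-- `Y` is a weak log canonical model of `(X, B + β)`: the birational map `X ⇢ Y` does not extract
divisors, `K_Y + B + β_Y` is `ℝ`-Cartier (with b-divisor `E`) and nef, and the log discrepancies of
the contracted prime divisors do not decrease. -/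
def IsWeakLCModel {d : ℕ} (T : Foliation K d) (X : Model K) (B β D : DVal K → ℝ) (Y : Model K)
    (E : DVal K → ℝ) : Prop :=
  (∀ w, IsPrimeOn Y w → IsPrimeOn X w) ∧ IsAdjoint T Y B β E ∧ IsNef Y E ∧
  ∀ w, IsPrimeOn X w → ¬ IsPrimeOn Y w → E w ≤ D w

end Pool.Agent.Y181
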